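import Pool.Agent.C4F.StmtsP

/-!
# Squad C4F, row SRC: numbers of slots and links
-/

set_option autoImplicit false

namespace Pool.Agent.C4F.H15

open Pool.Agent.C4F Classical

theorem cn_eq (P : ℕ → Prop) (n : ℕ) : cn P n = ((Finset.range n).filter P).card := by
  unfold cn
  rw [Nat.count_eq_card_filter_range]

theorem cn_le_card {α : Type} {P : ℕ → Prop} {N : ℕ} (f : ℕ → α) (S : Finset α)
    (h1 : ∀ s < N, P s → f s ∈ S)
    (h2 : ∀ s < N, P s → ∀ s' < N, P s' → f s = f s' → s = s') : cn P N ≤ S.card := by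
  rw [cn_eq]
  refine Finset.card_le_card_of_injOn f ?_ ?_
  · intro s hs
    have hs' := Finset.mem_filter.mp (Finset.mem_coe.mp hs)
    exact Finset.mem_coe.mpr (h1 s (Finset.mem_range.mp hs'.1) hs'.2)
  · intro s hs s' hs' he
    have a := Finset.mem_filter.mp (Finset.mem_coe.mp hs)
    have b := Finset.mem_filter.mp (Finset.mem_coe.mp hs')
    exact h2 s (Finset.mem_range.mp a.1) a.2 s' (Finset.mem_range.mp b.1) b.2 he

/-- a family of disjoint sets mapped injectively -/
theorem sum_cn_le {ι : Type} (I : Finset ι) (P : ι → ℕ → Prop) {N M : ℕ} {Q : ℕ → Prop}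
    (R : ℕ → ℕ → Prop)
    (h1 : ∀ i ∈ I, ∀ s < N, P i s → ∃ t < M, Q t ∧ R s t)
    (h2 : ∀ s s' t, R s t → R s' t → s = s')
    (h3 : ∀ i ∈ I, ∀ j ∈ I, ∀ s, P i s → P j s → i = j) :
    ∑ i ∈ I, cn (P i) N ≤ cn Q M := by
  simp only [cn_eq]
  rw [← Finset.card_biUnion]
  · have hex : ∀ s ∈ I.biUnion (fun i => (Finset.range N).filter (P i)), ∃ t < M, Q t ∧ R s t := by
      intro s hs
      obtain ⟨i, hi, hs'⟩ := Finset.mem_biUnion.mp hs
      have a := Finset.mem_filter.mp hs'
      exact h1 i hi s (Finset.mem_range.mp a.1) a.2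
    choose! F hF1 hF2 hF3 using hex
    refine Finset.card_le_card_of_injOn F ?_ ?_
    · intro s hs
      exact Finset.mem_coe.mpr (Finset.mem_filter.mpr
        ⟨Finset.mem_range.mpr (hF1 s (Finset.mem_coe.mp hs)), hF2 s (Finset.mem_coe.mp hs)⟩)
    · intro s hs s' hs' he
      have a := hF3 s (Finset.mem_coe.mp hs)
      have b := hF3 s' (Finset.mem_coe.mp hs')
      rw [← he] at b
      exact h2 s s' _ a b
  · intro i hi j hj hij
    rw [Function.onFun, Finset.disjoint_left]
    intro s ha hb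
    exact hij (h3 i hi j hj s (Finset.mem_filter.mp ha).2 (Finset.mem_filter.mp hb).2)

theorem cn_le (P : ℕ → Prop) (N : ℕ) : cn P N ≤ N := by
  rw [cn_eq]
  exact (Finset.card_filter_le _ _).trans (Finset.card_range N).le

theorem lk_src {D : Dat} {s t t' : ℕ} (h : D.Lk s t) (h' : D.Lk s t') : t = t' := by
  obtain ⟨h1, h2, h3, h4⟩ := h
  obtain ⟨g1, g2, g3, g4⟩ := h'
  rcases lt_trichotomy t t' with h | h | h
  · exact absurd h3.symm (g4 t h1 h)
  · exact h
  · exact absurd g3.symm (h4 t' g1 h)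

theorem lk_tgt {D : Dat} {s s' t : ℕ} (h : D.Lk s t) (h' : D.Lk s' t) : s = s' := by
  obtain ⟨h1, h2, h3, h4⟩ := h
  obtain ⟨g1, g2, g3, g4⟩ := h'
  rcases lt_trichotomy s s' with h | h | h
  · exact absurd (g3.trans h3.symm) (h4 s' h g1)
  · exact h
  · exact absurd (h3.trans g3.symm) (g4 s h h1)

/-- each group has at most `m / kp + 1` clauses -/
theorem grp_card (D : Dat) (p : ℕ) :
    cn (fun s => D.grp s = p) (3 * D.m) ≤ 3 * (D.m / D.kp + 1) := by
  have h := cn_le_card (P := fun s => D.grp s = p) (N := 3 * D.m)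
    (fun s => ((s / 3) / D.kp, s % 3)) (Finset.range (D.m / D.kp + 1) ×ˢ Finset.range 3) ?_ ?_
  · rw [Finset.card_product, Finset.card_range, Finset.card_range] at h
    exact h.trans (mul_comm _ _).le
  · intro s hs _
    refine Finset.mem_product.mpr ⟨Finset.mem_range.mpr ?_, Finset.mem_range.mpr ?_⟩
    · exact Nat.lt_succ_of_le (Nat.div_le_div_right (by omega))
    · exact Nat.mod_lt _ (by norm_num)
  · intro s _ hs s' _ hs' he
    simp only [Prod.mk.injEq] at he
    have e1 : s / 3 = s' / 3 := by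
      have a1 := Nat.div_add_mod (s / 3) D.kp
      have a2 := Nat.div_add_mod (s' / 3) D.kp
      have b1 : s / 3 % D.kp = p := hs
      have b2 : s' / 3 % D.kp = p := hs'
      rw [b1, he.1] at a1
      rw [b2] at a2
      omega
    omega

theorem src_grp (D : Dat) (p : ℕ) : ∑ p' ∈ Finset.range D.kp, cn (D.Src p p') (3 * D.m)
    ≤ cn (fun s => D.grp s = p) (3 * D.m) := by
  refine sum_cn_le (Finset.range D.kp) (fun p' => D.Src p p') (fun s t => s = t) ?_ ?_ ?_
  · rintro p' _ s hs ⟨t, _, _, hg, _⟩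
    exact ⟨s, hs, hg, rfl⟩
  · intro s s' t a b
    exact a.trans b.symm
  · rintro a _ b _ s ⟨t, _, hl, _, ht⟩ ⟨t', _, hl', _, ht'⟩
    rw [lk_src hl hl'] at ht
    exact ht.symm.trans ht'

theorem src : SrcStmt := by
  intro D _
  refine ⟨fun p => grp_card D p, fun p => (src_grp D p).trans (grp_card D p), ?_, ?_⟩
  · intro p'
    refine le_trans ?_ (grp_card D p')
    refine sum_cn_le (Finset.range D.kp) (fun p => D.Src p p') (fun s t => D.Lk s t) ?_ ?_ ?_
    · rintro p _ s _ ⟨t, ht, hl, _, hg⟩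
      exact ⟨t, ht, hg, hl⟩
    · intro s s' t a b
      exact lk_tgt a b
    · rintro a _ b _ s ⟨t, _, hl, ha, _⟩ ⟨t', _, hl', hb, _⟩
      exact ha.symm.trans hb
  · refine (Finset.sum_le_sum fun p _ => src_grp D p).trans ?_
    have h := sum_cn_le (Finset.range D.kp) (fun p s => D.grp s = p) (N := 3 * D.m)
      (M := 3 * D.m) (Q := fun _ => True) (fun s t => s = t) ?_ ?_ ?_
    · exact h.trans (cn_le _ _)
    · intro p _ s hs _
      exact ⟨s, hs, trivial, rfl⟩
    · intro s s' t a b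
      exact a.trans b.symm
    · intro a _ b _ s h1 h2
      exact h1.symm.trans h2

end Pool.Agent.C4F.H15
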